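import Mathlib
import Pool.Agent.Q197.PD.MomD

set_option autoImplicit false

/-!
# Moments of the gaps of random sets: the exact entropy threshold for the order of magnitude

We consider arbitrary random sets `A` of integers whose law on the dyadic block `[2 ^ k, 2 ^ (k + 1))` has
relative entropy at most `d k` (nats) with respect to Cramér's model (`AllModels d`, `SomeModel d`).
-/

namespace Pool.Agent.Results.MP_c702b2_nt.MomentsThreshold

open Finset MeasureTheory Filter Pool.Agent.Q120.ET Pool.Agent.Q120.SP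

/-- The element number `n` of `S`, in increasing order, `n = 0, 1, …`. -/
noncomputable def elt (S : Set ℕ) (n : ℕ) : ℕ := Nat.nth (fun a => a ∈ S) n

/-- The sum of the powers with the exponent `s` of the gaps between consecutive elements of `S` which are at most `x`. -/
noncomputable def moment (S : Set ℕ) (s : ℝ) (x : ℕ) : ℝ :=
  ∑ n ∈ (range x).filter (fun n => elt S (n + 1) ≤ x), ((elt S (n + 1) : ℝ) - elt S n) ^ s

/-- `S` is infinite and its moment of order `s` has the exact order of magnitude `x log ^ (s - 1) x`: its quotient by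
`x log ^ (s - 1) x` is bounded, and bounded away from zero, for large `x`. -/
def Order (S : Set ℕ) (s : ℝ) : Prop :=
  S.Infinite ∧ (fun x : ℕ => moment S s x) =Θ[atTop] fun x : ℕ => (x : ℝ) * Real.log x ^ (s - 1)

/-- For `s ≥ 2` and all budgets `d k ≥ 0`: the moment of order `s` almost surely has the exact order `x log ^ (s - 1) x` for
every random set whose relative entropies are at most `d k`, if and only if `∑ d k * k ^ (1 / s) / 2 ^ (k / s) < ∞`.
Otherwise the quotient is almost surely unbounded for some such set. -/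
theorem result (d : ℕ → ℝ) (hd : ∀ k, 0 ≤ d k) (s : ℝ) (hs : 2 ≤ s) :
    ((Summable fun k : ℕ => d k * (k : ℝ) ^ (1 / s) / (2 : ℝ) ^ ((k : ℝ) / s)) ↔ AllModels d (fun S => Order S s)) ∧
    ((¬ Summable fun k : ℕ => d k * (k : ℝ) ^ (1 / s) / (2 : ℝ) ^ ((k : ℝ) / s)) →
      SomeModel d (fun S => S.Infinite ∧
        ¬ (fun x : ℕ => moment S s x) =O[atTop] fun x : ℕ => (x : ℝ) * Real.log x ^ (s - 1))) := by
  have e : (fun k : ℕ => d k * (k : ℝ) ^ (1 / s) / (2 : ℝ) ^ ((k : ℝ) / s)) =
      fun k : ℕ => d k * ((k : ℝ) / Pool.Agent.Q197.PD.FF s k) := by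
    funext k
    rw [Pool.Agent.Q197.PD.FF_div hs, mul_div_assoc]
  rw [e]
  have hconv : (¬ Summable fun k : ℕ => d k * ((k : ℝ) / Pool.Agent.Q197.PD.FF s k)) →
      SomeModel d (fun S => S.Infinite ∧
        ¬ (fun x : ℕ => moment S s x) =O[atTop] fun x : ℕ => (x : ℝ) * Real.log x ^ (s - 1)) := fun hns =>
    Pool.Agent.Q197.PD.someModel_mo hs hd hns
  refine ⟨⟨?_, ?_⟩, hconv⟩
  · intro hsum Ω _ μ _ A hA hdd
    filter_upwards [Pool.Agent.Q197.PD.ae_good2 hs hA hd hsum hdd,
      Pool.Agent.Q197.PD.ae_card hA (Pool.Agent.Q197.PD.summable_two hs hd hsum) hdd] with ω hω hω2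
    refine ⟨hω.inf, hω.bigO hs, hω.lower hs ?_⟩
    filter_upwards [hω2] with k hk
    rw [Pool.Agent.Q197.PD.el_eq_tr]
    exact hk
  · intro h
    by_contra hns
    exact not_allModels_of (hconv hns) (fun S hS hS2 => hS.2 hS2.2.1) h

end Pool.Agent.Results.MP_c702b2_nt.MomentsThreshold
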